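import Pool.Agent.helper56.NZ.Spec
import Pool.Agent.helper24.BR.MBB
import Pool.Agent.helper99.HY.PDC

/-!
# Project nz: module CFR: consecutive conformal radii are comparable
-/

set_option autoImplicit false

open Complex Metric Set Filter Topology MeasureTheory
open Pool.Agent.helper98.ILF Pool.Agent.helper16.Multibrot
open HY (UD T S hd UN RM VV SG Orb fz)

noncomputable section

namespace NZ

lemma CFR_pow (a b : ℂ) (ha : ‖a‖ ≤ 4) (hb : ‖b‖ ≤ 4) (m : ℕ) :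
    4 * ‖a ^ m - b ^ m‖ ≤ m * 4 ^ m * ‖a - b‖ := by
  induction m with
  | zero => simp
  | succ m ih =>
    have h1 : a ^ (m + 1) - b ^ (m + 1) = a * (a ^ m - b ^ m) + (a - b) * b ^ m := by ring
    have h2 : ‖a ^ (m + 1) - b ^ (m + 1)‖ ≤ ‖a‖ * ‖a ^ m - b ^ m‖ + ‖a - b‖ * ‖b‖ ^ m := by
      rw [h1]
      refine (norm_add_le _ _).trans ?_
      rw [norm_mul, norm_mul, norm_pow]
    have h3 : ‖a‖ * ‖a ^ m - b ^ m‖ ≤ 4 * ‖a ^ m - b ^ m‖ :=
      mul_le_mul_of_nonneg_right ha (norm_nonneg _)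
    have h4 : ‖a - b‖ * ‖b‖ ^ m ≤ ‖a - b‖ * 4 ^ m :=
      mul_le_mul_of_nonneg_left (pow_le_pow_left₀ (norm_nonneg _) hb m) (norm_nonneg _)
    have h5 : ‖a ^ (m + 1) - b ^ (m + 1)‖ ≤ m * 4 ^ m * ‖a - b‖ + ‖a - b‖ * 4 ^ m := by linarith
    have h6 : 4 * ‖a ^ (m + 1) - b ^ (m + 1)‖ ≤ 4 * (m * 4 ^ m * ‖a - b‖ + ‖a - b‖ * 4 ^ m) := by
      linarith
    refine h6.trans (le_of_eq ?_)
    push_cast
    ring

theorem CFR (hVKB : HY.VKB_stmt) (hKO0 : V3.KO0_stmt) : CFR_stmt := by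
  intro n hn
  have hnR : (2 : ℝ) ≤ n := by exact_mod_cast hn
  have h4n : (1 : ℝ) ≤ (4 : ℝ) ^ n := one_le_pow₀ (by norm_num)
  have hprod : (2 : ℝ) ≤ n * 4 ^ n := by nlinarith
  set δ : ℝ := 1 / (2 * (n * 4 ^ n)) with hδ
  have hδ0 : 0 < δ := by rw [hδ]; positivity
  have hδ1 : δ ≤ 1 := by
    rw [hδ, div_le_one (by positivity)]
    linarith
  refine ⟨δ, hδ0, hδ1, ?_⟩
  intro c hc k φ φ' hφ hφ'
  obtain ⟨hc2, h0f, hcf, hcpt, hff, hopen, hV4, hVsub, hVeq, hfV, hVf, hcl⟩ := hVKB n c hn hc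
  have hMBB := ((BR.MBB n c hn).1 hc).2
  have h0UD : (0 : ℂ) ∈ UD := mem_ball_self one_pos
  have hUDo : IsOpen UD := isOpen_ball
  -- the map F
  have hcont : Differentiable ℂ ((fz n c)^[k]) := by
    have h : Differentiable ℂ (fz n c) := by
      unfold fz
      fun_prop
    exact h.iterate k
  set F : ℂ → ℂ := fun x => (fz n c)^[k] (φ x) with hF
  have hFd : DifferentiableOn ℂ F UD := hcont.comp_differentiableOn hφ.dif
  have hF4 : ∀ x ∈ UD, ‖F x‖ < 4 := by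
    intro x hx
    have h1 : φ x ∈ VV n c k := by
      rw [← hφ.img]
      exact mem_image_of_mem _ hx
    exact h1
  have hF0 : ‖F 0‖ ≤ 2 := by
    have h1 : F 0 = (fz n c)^[k] 0 := by
      simp only [hF]
      rw [hφ.val]
    rw [h1]
    exact hMBB k
  have hF0' : ‖F 0 ^ n + c‖ ≤ 2 := by
    have h1 : F 0 ^ n + c = (fz n c)^[k + 1] 0 := by
      rw [Function.iterate_succ_apply']
      simp only [hF]
      rw [hφ.val]
      rfl
    rw [h1]
    exact hMBB (k + 1)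
  have hLip : ∀ x ∈ UD, ‖F x - F 0‖ ≤ 8 * ‖x‖ := by
    intro x hx
    have hmap : MapsTo F (ball (0 : ℂ) 1) (closedBall (F 0) 8) := by
      intro y hy
      rw [mem_closedBall, dist_eq_norm]
      have h1 := hF4 y hy
      have h2 := norm_sub_le (F y) (F 0)
      linarith
    have h := dist_le_div_mul_dist_of_mapsTo_ball (z := x) hFd hmap hx
    rw [dist_eq_norm, dist_zero_right, div_one] at h
    exact h
  have hin : ∀ x ∈ UD, ‖x‖ < δ → φ x ∈ VV n c (k + 1) := by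
    intro x hx hxδ
    have h1 : (fz n c)^[k + 1] (φ x) = F x ^ n + c := by
      rw [Function.iterate_succ_apply']
      rfl
    change ‖(fz n c)^[k + 1] (φ x)‖ < 4
    rw [h1]
    have h2 := CFR_pow (F x) (F 0) (hF4 x hx).le (by linarith) n
    have h3 := hLip x hx
    have h4 : (n : ℝ) * 4 ^ n * ‖F x - F 0‖ ≤ n * 4 ^ n * (8 * ‖x‖) :=
      mul_le_mul_of_nonneg_left h3 (by positivity)
    have h5 : (n : ℝ) * 4 ^ n * (8 * ‖x‖) ≤ n * 4 ^ n * (8 * δ) :=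
      mul_le_mul_of_nonneg_left (by linarith) (by positivity)
    have h6 : (n : ℝ) * 4 ^ n * (8 * δ) = 4 := by
      rw [hδ]
      field_simp
      norm_num
    have h7 : ‖F x ^ n - F 0 ^ n‖ ≤ 1 := by linarith
    have h8 : F x ^ n + c = (F x ^ n - F 0 ^ n) + (F 0 ^ n + c) := by ring
    have h9 := norm_add_le (F x ^ n - F 0 ^ n) (F 0 ^ n + c)
    rw [h8]
    linarith
  -- the inverse
  obtain ⟨g, hg1, hg2⟩ := HY.PDC_inv hKO0 hφ'.dif hφ'.inj
  have hδx : ∀ x ∈ UD, (δ : ℂ) * x ∈ UD ∧ ‖(δ : ℂ) * x‖ < δ := by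
    intro x hx
    have hx1 : ‖x‖ < 1 := mem_ball_zero_iff.1 hx
    have h1 : ‖(δ : ℂ) * x‖ = δ * ‖x‖ := by
      rw [norm_mul, Complex.norm_real, Real.norm_of_nonneg hδ0.le]
    have h2 : ‖(δ : ℂ) * x‖ < δ := by
      rw [h1]
      nlinarith
    exact ⟨mem_ball_zero_iff.2 (by linarith), h2⟩
  have hθex : ∀ x ∈ UD, ∃ u ∈ UD, φ' u = φ ((δ : ℂ) * x) := by
    intro x hx
    have h1 := hin _ (hδx x hx).1 (hδx x hx).2
    rw [← hφ'.img] at h1
    exact h1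
  set θ : ℂ → ℂ := fun x => g (φ ((δ : ℂ) * x)) with hθ
  have hθUD : ∀ x ∈ UD, θ x ∈ UD ∧ φ' (θ x) = φ ((δ : ℂ) * x) := by
    intro x hx
    obtain ⟨u, hu, hu'⟩ := hθex x hx
    have h1 : θ x = u := by
      simp only [hθ]
      rw [← hu', hg1 u hu]
    rw [h1]
    exact ⟨hu, hu'⟩
  have hθd : DifferentiableOn ℂ θ UD := by
    intro x hx
    obtain ⟨u, hu, hu'⟩ := hθex x hx
    have h1 : DifferentiableAt ℂ g (φ ((δ : ℂ) * x)) := by
      rw [← hu']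
      exact hg2 u hu
    have h2 : DifferentiableAt ℂ φ ((δ : ℂ) * x) :=
      hφ.dif.differentiableAt (hUDo.mem_nhds (hδx x hx).1)
    have h3 : DifferentiableAt ℂ (fun y : ℂ => (δ : ℂ) * y) x := by fun_prop
    exact (h1.comp x (h2.comp x h3)).differentiableWithinAt
  have hθ0 : θ 0 = 0 := by
    have h1 : φ ((δ : ℂ) * 0) = φ' 0 := by rw [mul_zero, hφ.val, hφ'.val]
    have h2 : θ 0 = g (φ ((δ : ℂ) * 0)) := rfl
    rw [h2, h1, hg1 0 h0UD]
  have hθ1 : ‖deriv θ 0‖ ≤ 1 := by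
    refine norm_deriv_le_one_of_mapsTo_ball (c := 0) (R := 1) hθd ?_ one_pos
    intro x hx
    rw [hθ0]
    exact ball_subset_closedBall (hθUD x hx).1
  -- derivatives at 0
  have hd1 : HasDerivAt (fun x : ℂ => φ ((δ : ℂ) * x)) (deriv φ 0 * (δ : ℂ)) 0 := by
    have h1 : HasDerivAt φ (deriv φ 0) ((δ : ℂ) * 0) := by
      rw [mul_zero]
      exact (hφ.dif.differentiableAt (hUDo.mem_nhds h0UD)).hasDerivAt
    have h2 : HasDerivAt (fun y : ℂ => (δ : ℂ) * y) (δ : ℂ) 0 := by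
      have h3 := (hasDerivAt_id (0 : ℂ)).const_mul (δ : ℂ)
      rw [mul_one] at h3
      exact h3
    exact h1.comp (0 : ℂ) h2
  have hd2 : HasDerivAt (fun x : ℂ => φ' (θ x)) (deriv φ' 0 * deriv θ 0) 0 := by
    have h1 : HasDerivAt φ' (deriv φ' 0) (θ 0) := by
      rw [hθ0]
      exact (hφ'.dif.differentiableAt (hUDo.mem_nhds h0UD)).hasDerivAt
    have h2 : HasDerivAt θ (deriv θ 0) 0 :=
      (hθd.differentiableAt (hUDo.mem_nhds h0UD)).hasDerivAt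
    exact h1.comp (0 : ℂ) h2
  have heq : (fun x : ℂ => φ' (θ x)) =ᶠ[𝓝 0] (fun x : ℂ => φ ((δ : ℂ) * x)) := by
    filter_upwards [hUDo.mem_nhds h0UD] with x hx
    exact (hθUD x hx).2
  have hd3 : deriv φ' 0 * deriv θ 0 = deriv φ 0 * (δ : ℂ) :=
    (hd2.congr_of_eventuallyEq heq.symm).unique hd1
  have hn1 : ‖deriv φ' 0‖ * ‖deriv θ 0‖ = ‖deriv φ 0‖ * δ := by
    have h := congrArg norm hd3
    rw [norm_mul, norm_mul, Complex.norm_real, Real.norm_of_nonneg hδ0.le] at h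
    exact h
  have hn2 : ‖deriv φ' 0‖ * ‖deriv θ 0‖ ≤ ‖deriv φ' 0‖ * 1 :=
    mul_le_mul_of_nonneg_left hθ1 (norm_nonneg _)
  linarith

end NZ
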