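import Pool.Agent.helper70.NZ.SpecA

/-! # Row nz:YKT (the class `KY` and injective homomorphisms) -/

set_option autoImplicit false

namespace Pool.Agent.ND.NY.E

open Pool.Agent.helper58.DC Pool.Agent.DI Pool.Agent.GR Pool.Agent.OB Pool.Agent.DR Pool.Agent.FI Pool.Agent.FI3 Pool.Agent.FI4 Pool.Agent.FI4I Pool.Agent.LE Pool.Agent.L5 Pool.Agent.NAB Pool.Agent.NE
open Pool.Agent.ZB (Pm Om KZ EQ BQ lQ MZc BDK)

theorem YKT_Om {G G' : Type} [Group G] [Group G'] (i : G →* G') (hi : Function.Injective i) (p j : ℕ) (Z : Subgroup G) :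
    Om p j (Z.map i) = i '' Om p j Z := by
  ext y
  constructor
  · rintro ⟨h1, z, hz, h2⟩
    obtain ⟨z0, hz0, rfl⟩ := Subgroup.mem_map.1 hz
    refine ⟨z0 ^ p ^ j, ⟨?_, z0, hz0, rfl⟩, ?_⟩
    · apply hi
      rw [map_pow, map_pow, h2, h1, map_one]
    · rw [map_pow, h2]
  · rintro ⟨y0, ⟨h1, z, hz, h2⟩, rfl⟩
    refine ⟨?_, i z, Subgroup.mem_map_of_mem i hz, ?_⟩
    · rw [← map_pow, h1, map_one]
    · rw [← map_pow, h2]

theorem YKT_ncard {G G' : Type} [Group G] [Group G'] (i : G →* G') (hi : Function.Injective i) (p j : ℕ) (Z : Subgroup G) :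
    (Om p j (Z.map i)).ncard = (Om p j Z).ncard := by
  rw [YKT_Om i hi, Set.ncard_image_of_injective _ hi]

theorem YKT_card {G G' : Type} [Group G] [Group G'] (i : G →* G') (hi : Function.Injective i) (Z : Subgroup G) :
    Nat.card (Z.map i) = Nat.card Z :=
  (Nat.card_congr (Z.equivMapOfInjective i hi).toEquiv).symm

theorem YKT_one (p e : ℕ) (κ : Pm) {G G' : Type} [Group G] [Group G'] (i : G →* G') (hi : Function.Injective i) (Q : Subgroup G) :
    KY p e κ (Q.map i) ↔ KY p e κ Q := by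
  unfold KY
  constructor
  · rintro ⟨a1, a2, a3, a4, Z', hZ', b1, b2, b3, b4, b5, b6, b7⟩
    refine ⟨a1, a2, a3, a4.of_equiv (Q.equivMapOfInjective i hi).symm, Z'.comap i, ?_, ?_⟩
    · intro z hz
      obtain ⟨q, hq, hqz⟩ := Subgroup.mem_map.1 (hZ' (Subgroup.mem_comap.1 hz))
      rw [← hi hqz]
      exact hq
    have hZe : (Z'.comap i).map i = Z' := by
      apply le_antisymm (Subgroup.map_comap_le _ _)
      intro z hz
      obtain ⟨q, hq, rfl⟩ := Subgroup.mem_map.1 (hZ' hz)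
      exact Subgroup.mem_map_of_mem i (Subgroup.mem_comap.2 hz)
    rw [← hZe, YKT_card i hi, YKT_card i hi] at b2
    rw [← hZe, YKT_ncard i hi] at b3 b4 b5
    refine ⟨?_, b2, b3, b4, b5, ?_, ?_⟩
    · intro z hz x hx
      apply hi
      rw [map_mul, map_mul]
      exact b1 _ (Subgroup.mem_comap.1 hz) _ (Subgroup.mem_map_of_mem i hx)
    · intro z hz
      apply hi
      rw [map_pow, map_one]
      exact b6 _ (Subgroup.mem_comap.1 hz)
    · obtain ⟨z, hz, hzo⟩ := b7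
      obtain ⟨q, hq, rfl⟩ := Subgroup.mem_map.1 (hZ' hz)
      refine ⟨q, Subgroup.mem_comap.2 hz, ?_⟩
      rw [← hzo]
      exact (orderOf_injective i hi q).symm
  · rintro ⟨a1, a2, a3, a4, Z, hZ, b1, b2, b3, b4, b5, b6, b7⟩
    refine ⟨a1, a2, a3, a4.of_equiv (Q.equivMapOfInjective i hi), Z.map i, Subgroup.map_mono hZ, ?_, ?_, ?_, ?_, ?_, ?_, ?_⟩
    · intro z hz x hx
      obtain ⟨z0, hz0, rfl⟩ := Subgroup.mem_map.1 hz
      obtain ⟨x0, hx0, rfl⟩ := Subgroup.mem_map.1 hx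
      rw [← map_mul, ← map_mul, b1 _ hz0 _ hx0]
    · rw [YKT_card i hi, YKT_card i hi]
      exact b2
    · rw [YKT_ncard i hi]
      exact b3
    · rw [YKT_ncard i hi]
      exact b4
    · rw [YKT_ncard i hi]
      exact b5
    · intro z hz
      obtain ⟨z0, hz0, rfl⟩ := Subgroup.mem_map.1 hz
      rw [← map_pow, b6 _ hz0, map_one]
    · obtain ⟨z, hz, hzo⟩ := b7
      exact ⟨i z, Subgroup.mem_map_of_mem i hz, (orderOf_injective i hi z).trans hzo⟩

theorem YKT : YKT_stmt := by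
  intro p e κ
  refine ⟨fun G G' _ _ _ _ i hi Q => YKT_one p e κ i hi Q, fun G _ _ N Q hQ => ?_⟩
  have h1 := YKT_one p e κ N.subtype N.subtype_injective (Q.subgroupOf N)
  rw [Subgroup.map_subgroupOf_eq_of_le hQ] at h1
  exact h1.symm

end Pool.Agent.ND.NY.E
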